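import Pool.Agent.Run7.h721.KL3.Final3
import Pool.Agent.KLev.HighDim

/-!
# Halving hyperplanes: at least `n ^ (d - 1 + C / (log log n) ^ 3)` for every `C`

`GeneralPosition`, `IsKHyperplane` and `eMax` are defined in `Pool/Agent/KLev/HighDim.lean`
(namespace `KLev.HighDim`).
-/

namespace Pool.Agent.Results.MP_971713_co.CubicLogLog

open Filter KLev

/-- For every `d ≥ 3` and every constant `C`, all large `n` satisfy
`e_{⌊n/2⌋}^d(n) ≥ n ^ (d - 1 + C / (log log n) ^ 3)`. -/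
theorem result : ∀ d : ℕ, 3 ≤ d → ∀ C : ℝ, ∀ᶠ n : ℕ in atTop,
    (n : ℝ) ^ ((d : ℝ) - 1 + C / (Real.log (Real.log n)) ^ 3) ≤
      (HighDim.eMax d (n / 2) n : ℝ) := by
  intro d hd C
  obtain ⟨e, rfl⟩ : ∃ e, d = e + 2 := ⟨d - 2, by omega⟩
  have he : 1 ≤ e := by omega
  obtain ⟨a, ha⟩ := (Pool.Agent.Run7.h721.KL3.finalP ((4 * e) ^ e) C).exists_forall_of_atTop
  filter_upwards [eventually_ge_atTop (8 * a + 100 * e + 100)] with n hn
  -- sizes
  set m : ℕ := n / (4 * e) with hm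
  have h4e : 0 < 4 * e := by omega
  have hm1 : m * (4 * e) ≤ n := Nat.div_mul_le_self n (4 * e)
  have hm2 : n < (m + 1) * (4 * e) := by
    have := Nat.lt_mul_div_succ n h4e
    rw [← hm] at this
    calc n < 4 * e * (m + 1) := this
      _ = (m + 1) * (4 * e) := by ring
  have hm3 : 10 ≤ m := by
    rw [hm, Nat.le_div_iff_mul_le h4e]; omega
  have hem : e * (4 * m) ≤ n := by
    calc e * (4 * m) = m * (4 * e) := by ring
      _ ≤ n := hm1
  obtain ⟨x, hx⟩ : ∃ x, x = e * m := ⟨_, rfl⟩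
  have hx4 : 4 * x ≤ n := by
    rw [hx]; calc 4 * (e * m) = e * (4 * m) := by ring
      _ ≤ n := hem
  have hem1 : e * (m - 1) = x - e := by
    rw [hx, Nat.mul_sub, mul_one]
  have he2m : e * (2 * m) = 2 * x := by rw [hx]; ring
  have hxe : e ≤ x := by
    rw [hx]; exact Nat.le_mul_of_pos_right e (by omega)
  obtain ⟨N, E, P, hH, hN, hE⟩ := ha (n / 8 + 1) (by omega)
  have h1 := HighDim.eMax_ge hH e m (n / 2 + e - x) (n - 2 * x) (by omega) (by omega)
  have e1 : n / 2 + e - x + e * (m - 1) = n / 2 := by rw [hem1]; omega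
  have e2 : n - 2 * x + e * (2 * m) = n := by rw [he2m]; omega
  rw [e1, e2] at h1
  have h2 : ((E * (2 * m) ^ e : ℕ) : ℝ) ≤ HighDim.eMax (e + 2) (n / 2) n := by exact_mod_cast h1
  refine le_trans ?_ h2
  have hn0 : (0 : ℝ) < n := by
    have : 0 < n := by omega
    exact_mod_cast this
  have hn8 : (n : ℝ) ≤ 8 * ((n / 8 + 1 : ℕ) : ℝ) := by
    have : n ≤ 8 * (n / 8 + 1) := by omega
    exact_mod_cast this
  have hn8' : ((n / 8 + 1 : ℕ) : ℝ) ≤ n := by
    have : n / 8 + 1 ≤ n := by omega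
    exact_mod_cast this
  have h3 := hE n hn8' hn8
  set η := C / (Real.log (Real.log n)) ^ 3 with hη
  have h5 : (n : ℝ) ^ (((e + 2 : ℕ) : ℝ) - 1 + η) = (n : ℝ) ^ e * (n : ℝ) ^ (1 + η) := by
    rw [show ((e + 2 : ℕ) : ℝ) - 1 + η = (e : ℝ) + (1 + η) by push_cast; ring,
      Real.rpow_add hn0, Real.rpow_natCast]
  have h6 : (n : ℝ) ≤ (4 * e) * (2 * m) := by
    have h7 : n ≤ (4 * e) * (2 * m) := by
      calc n ≤ (m + 1) * (4 * e) := hm2.le
        _ ≤ (2 * m) * (4 * e) := Nat.mul_le_mul_right _ (by omega)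
        _ = (4 * e) * (2 * m) := by ring
    exact_mod_cast h7
  have h8 : (n : ℝ) ^ e ≤ (4 * e) ^ e * (2 * m) ^ e := by
    rw [← mul_pow]
    exact pow_le_pow_left₀ hn0.le h6 e
  rw [h5]
  push_cast
  have h9 : (0:ℝ) ≤ (n : ℝ) ^ (1 + η) := by positivity
  calc (n : ℝ) ^ e * (n : ℝ) ^ (1 + η)
      ≤ ((4 * e) ^ e * (2 * m) ^ e) * (n : ℝ) ^ (1 + η) := mul_le_mul_of_nonneg_right h8 h9
    _ = ((4 * e) ^ e * (n : ℝ) ^ (1 + η)) * (2 * m) ^ e := by ring
    _ ≤ E * (2 * m) ^ e := mul_le_mul_of_nonneg_right h3 (by positivity)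

end Pool.Agent.Results.MP_971713_co.CubicLogLog
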