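import Pool.Agent.Run7.h726.RS.N2

/-!
# Halving hyperplanes of random subsets

`GeneralPosition` and `IsKHyperplane` are defined in `Pool/Agent/KLev/HighDim.lean` (namespace
`KLev.HighDim`). The halving hyperplanes of a finite set `R` are its `k`-hyperplanes with
`k = ⌊|R| / 2⌋`.
-/

set_option autoImplicit false

namespace Pool.Agent.Results.MP_971713_co.RandomSubsets

open KLev.HighDim Run7.h726.RS

/-- Let `S` be a set of `n ≥ d` points of `ℝ ^ d` in general position, `d ≥ 1`.
1. If every point is deleted independently with probability `p`, `0 < p ≤ 1 / 2`, then the expected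
number of halving hyperplanes of the remaining set is at most `4 * C(n, d) / √(p (n - d + 2))`.
2. For `1 ≤ m ≤ n` at most `m` points can be deleted so that the remaining set has at most
`8 * C(n, d) * √(2 n / (m (n - d + 2)))` halving hyperplanes. -/
theorem result (d : ℕ) (hd : 1 ≤ d) (S : Finset (Fin d → ℝ)) (hS : GeneralPosition S)
    (hn : d ≤ S.card) :
    (∀ p : ℝ, 0 < p → p ≤ 1 / 2 →
      ∑ R ∈ S.powerset, (1 - p) ^ R.card * p ^ (S.card - R.card) *
        ({T | IsKHyperplane R (R.card / 2) T}.ncard : ℝ) ≤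
          4 * (S.card.choose d : ℝ) / √(p * ((S.card : ℝ) - d + 2))) ∧
    (∀ m : ℕ, 1 ≤ m → m ≤ S.card → ∃ R ⊆ S, S.card - R.card ≤ m ∧
      ({T | IsKHyperplane R (R.card / 2) T}.ncard : ℝ) ≤
        8 * (S.card.choose d : ℝ) * √(2 * (S.card : ℝ) / (m * ((S.card : ℝ) - d + 2)))) := by
  classical
  exact ⟨fun _ h0 h1 => exp_halving hd hS h0 h1 hn,
    fun _ hm hmn => few_halving hd hS hn hm hmn⟩

end Pool.Agent.Results.MP_971713_co.RandomSubsets
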